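import Pool.Agent.Helper38.FRX.Goals

/-!
# Project FRX, packet PRT
-/

set_option autoImplicit false

namespace Pool.Agent.Helper26.FRX

open Finset Pool.Agent.Helper55.FR Pool.Agent.Helper38.FRX

theorem claim (hC : ChpStmt) (V : Type) [Fintype V] [DecidableEq V] (r : V → V → Prop) (L : ℕ)
    (hs : ∀ x y, r x y → r y x) (h3 : ∀ x, ∃ N : Finset V, N.card ≤ 3 ∧ ∀ y, r x y → y ∈ N)
    (hL : 1 ≤ L) : ∀ (n : ℕ) (W : Finset V), W.card ≤ n → W.Nonempty → Con r W →
    ∃ κ : V → V, ∀ x ∈ W, κ x ∈ W ∧ κ (κ x) = κ x ∧ Con r (W.filter fun y => κ y = κ x) ∧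
      (W.filter fun y => κ y = κ x).card ≤ 4 * L ∧
      (L ≤ (W.filter fun y => κ y = κ x).card ∨ (W.filter fun y => κ y = κ x) = W) := by
  intro n
  induction n with
  | zero =>
    intro W hW hne _
    exact absurd (Finset.card_pos.2 hne) (by omega)
  | succ n ih =>
    intro W hW hne hcon
    by_cases hsm : W.card ≤ 4 * L
    · obtain ⟨w, hw⟩ := hne
      refine ⟨fun _ => w, fun x _ => ?_⟩
      have e : (W.filter fun _ => w = w) = W := Finset.filter_true_of_mem fun _ _ => rfl
      refine ⟨hw, rfl, ?_, ?_, Or.inr e⟩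
      · rw [e]
        exact hcon
      · rw [e]
        exact hsm
    · obtain ⟨S, hSW, hS1, hS2, hcS, hcW⟩ := hC V r L W hs h3 hL (by omega) hcon
      have hcard : (W \ S).card = W.card - S.card := Finset.card_sdiff_of_subset hSW
      have hne' : (W \ S).Nonempty := Finset.card_pos.1 (by omega)
      obtain ⟨κ', hκ'⟩ := ih (W \ S) (by omega) hne' hcW
      obtain ⟨s, hsS⟩ : S.Nonempty := Finset.card_pos.1 (by omega)
      refine ⟨fun x => if x ∈ S then s else κ' x, fun x hx => ?_⟩
      by_cases hxS : x ∈ S
      · have e : (W.filter fun y => (if y ∈ S then s else κ' y) = if x ∈ S then s else κ' x) =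
            S := by
          ext y
          rw [Finset.mem_filter, if_pos hxS]
          constructor
          · rintro ⟨hy, h⟩
            by_contra hyS
            rw [if_neg hyS] at h
            have h1 := (hκ' y (Finset.mem_sdiff.2 ⟨hy, hyS⟩)).1
            rw [h] at h1
            exact (Finset.mem_sdiff.1 h1).2 hsS
          · intro hy
            exact ⟨hSW hy, if_pos hy⟩
        beta_reduce
        refine ⟨?_, ?_, ?_, ?_, ?_⟩
        · rw [if_pos hxS]
          exact hSW hsS
        · simp only [if_pos hxS, if_pos hsS]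
        · rw [e]
          exact hcS
        · rw [e]
          omega
        · rw [e]
          exact Or.inl hS1
      · have hx' : x ∈ W \ S := Finset.mem_sdiff.2 ⟨hx, hxS⟩
        obtain ⟨h1, h2, h4, h5, h6⟩ := hκ' x hx'
        have hkS : κ' x ∉ S := (Finset.mem_sdiff.1 h1).2
        have e : (W.filter fun y => (if y ∈ S then s else κ' y) = if x ∈ S then s else κ' x) =
            ((W \ S).filter fun y => κ' y = κ' x) := by
          ext y
          rw [Finset.mem_filter, Finset.mem_filter, if_neg hxS, Finset.mem_sdiff]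
          constructor
          · rintro ⟨hy, h⟩
            by_cases hyS : y ∈ S
            · rw [if_pos hyS] at h
              rw [← h] at hkS
              exact absurd hsS hkS
            · rw [if_neg hyS] at h
              exact ⟨⟨hy, hyS⟩, h⟩
          · rintro ⟨⟨hy, hyS⟩, h⟩
            exact ⟨hy, by rw [if_neg hyS]; exact h⟩
        beta_reduce
        refine ⟨?_, ?_, ?_, ?_, ?_⟩
        · rw [if_neg hxS]
          exact (Finset.mem_sdiff.1 h1).1
        · simp only [if_neg hxS, if_neg hkS]
          exact h2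
        · rw [e]
          exact h4
        · rw [e]
          exact h5
        · rw [e]
          left
          rcases h6 with h6 | h6
          · exact h6
          · rw [h6]
            omega

theorem prt (hR : RtrStmt) (hC : ChpStmt) : Pool.Agent.Helper38.FRX.PrtStmt := by
  intro V _ _ r L hs h3 hL hcon
  by_cases hV : IsEmpty V
  · exact ⟨id, id, fun _ => 0, ⟨fun x => hV.elim x, fun x => hV.elim x, fun x => hV.elim x,
      fun x => hV.elim x, fun x => hV.elim x, fun x => hV.elim x⟩⟩
  · rw [not_isEmpty_iff] at hV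
    obtain ⟨κ, hκ⟩ := claim hC V r L hs h3 hL _ univ le_rfl Finset.univ_nonempty hcon
    have hch : ∀ s : V, ∃ (par : V → V) (dep : V → ℕ), κ s = s → ∀ y, κ y = s → y ≠ s →
        κ (par y) = s ∧ r (par y) y ∧ dep (par y) < dep y := by
      intro s
      by_cases hss : κ s = s
      · obtain ⟨-, -, h4, -, -⟩ := hκ s (Finset.mem_univ s)
        obtain ⟨par, dep, h⟩ := hR V r (univ.filter fun y => κ y = κ s) s
          (Finset.mem_filter.2 ⟨Finset.mem_univ _, rfl⟩) h4
        refine ⟨par, dep, fun _ y hy hne => ?_⟩
        obtain ⟨g1, g2, g3⟩ := h y (Finset.mem_filter.2 ⟨Finset.mem_univ _, by rw [hy, hss]⟩) hne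
        exact ⟨(Finset.mem_filter.1 g1).2.trans hss, g2, g3⟩
      · exact ⟨id, fun _ => 0, fun h => absurd h hss⟩
    choose P D h using hch
    have hid : ∀ x, κ (κ x) = κ x := fun x => (hκ x (Finset.mem_univ x)).2.1
    refine ⟨κ, fun x => if x = κ x then x else P (κ x) x, fun x => D (κ x) x,
      ⟨hid, fun x => ?_, fun x hx => ?_, fun x hx => ?_, fun x => ?_, fun x => ?_⟩⟩
    · by_cases hx : x = κ x
      · simp only [if_pos hx]
      · simp only [if_neg hx]
        exact (h (κ x) (hid x) x rfl hx).1
    · simp only [if_neg hx]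
      exact (h (κ x) (hid x) x rfl hx).2.1
    · simp only [if_neg hx]
      rw [(h (κ x) (hid x) x rfl hx).1]
      exact (h (κ x) (hid x) x rfl hx).2.2
    · exact (hκ x (Finset.mem_univ x)).2.2.2.1
    · rcases (hκ x (Finset.mem_univ x)).2.2.2.2 with h6 | h6
      · exact Or.inl h6
      · refine Or.inr fun y => ?_
        have : y ∈ (univ.filter fun y => κ y = κ x) := by
          rw [h6]
          exact Finset.mem_univ y
        exact (Finset.mem_filter.1 this).2

end Pool.Agent.Helper26.FRX
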